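import Pool.Agent.Helper84.S7.StD1

/-!
# Project W7, module Lif: lifting symbols modulo 7 to integral symbols
-/

set_option autoImplicit false

namespace Pool.Agent.Helper86.S7

open Pool.Agent.Helper14.CV (Homog EqC act Tl)
open Pool.Agent.Helper28.WK (SymP Tw evw Ok)
open Pool.Agent.Helper84.S7 Pool.Agent.Helper4.S7 Pool.Agent.Helper76.S7

/-- the reduction modulo seven -/
private def red (G : ℤ → ℤ → ℤ) : ℤ → ℤ → ZMod 7 := fun p q => ((G p q : ℤ) : ZMod 7)

private theorem red_Sym {r s : ℕ} {G : ℤ → ℤ → ℤ} (h : SymP 7 r s G) : SymP 7 r s (red G) := by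
  refine ⟨?_, ?_⟩
  · intro k p q hk hpq
    change ((G (k * p) (k * q) : ℤ) : ZMod 7) = ((G p q : ℤ) : ZMod 7)
    rw [h.1 k p q hk hpq]
  · intro a b c d hdet hb hc
    obtain ⟨e, he⟩ := h.2 a b c d hdet hb hc
    refine ⟨(e : ZMod 7), ?_⟩
    intro p q hpq
    have h1 := he p q hpq
    have h2 : G (a * p + b * q) (c * p + d * q) = G p q + e := h1
    change ((G (a * p + b * q) (c * p + d * q) : ℤ) : ZMod 7) = ((G p q : ℤ) : ZMod 7) + e
    rw [h2, Int.cast_add]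

private theorem red_Tl (l : ℕ) (m : ℤ) (G : ℤ → ℤ → ℤ) : Tl l m (red G) = red (Tl l m G) := by
  funext p q
  change red G (l * p) q + ∑ j ∈ Finset.range l, red G (p + m * j * q) (l * q)
    = ((G (l * p) q + ∑ j ∈ Finset.range l, G (p + m * j * q) (l * q) : ℤ) : ZMod 7)
  rw [Int.cast_add, Int.cast_sum]
  rfl

private theorem red_Tw (m : ℤ) (ls : List ℕ) (G : ℤ → ℤ → ℤ) :
    Tw m ls (red G) = red (Tw m ls G) := by
  induction ls with
  | nil => rfl
  | cons l ls ih =>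
    change Tl l m (Tw m ls (red G)) = red (Tl l m (Tw m ls G))
    rw [ih, red_Tl]

private theorem red_ev (m : ℤ) (ls : List ℕ) (G : ℤ → ℤ → ℤ) :
    evw m ls (red G) = ((evw m ls G : ℤ) : ZMod 7) := by
  unfold evw
  rw [red_Tw, Int.cast_sub]
  rfl

private theorem red_pf {q q' : ℕ} (G : ℤ → ℤ → ℤ) (i : Fin 2) (x : ZMod q) (y : ZMod q') :
    pf7 (red G) i x y = ((pf7 G i x y : ℤ) : ZMod 7) := by
  unfold pf7 edge7
  rw [Int.cast_sub]
  rfl

private theorem sub_pf {q q' : ℕ} (G H : ℤ → ℤ → ZMod 7) (i : Fin 2) (x : ZMod q) (y : ZMod q') :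
    pf7 (G + -H) i x y = pf7 G i x y - pf7 H i x y := by
  unfold pf7 edge7
  simp only [Pi.add_apply, Pi.neg_apply]
  abel

/-! `evw` depends only on the class up to constants -/

private theorem eqC_Tw (m : ℤ) {G H : ℤ → ℤ → ZMod 7} (h : EqC G H) (ls : List ℕ)
    (hls : Ok 7 ls) : EqC (Tw m ls G) (Tw m ls H) := by
  induction ls with
  | nil => exact h
  | cons l ls ih =>
    have h1 := ih fun k hk => hls k (List.mem_cons_of_mem _ hk)
    have h2 := (hls l List.mem_cons_self).1.pos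
    exact h1.Tl h2 m

private theorem ev_congr7 (m : ℤ) {G H : ℤ → ℤ → ZMod 7} (h : EqC G H) (ls : List ℕ)
    (hls : Ok 7 ls) : evw m ls G = evw m ls H := by
  obtain ⟨e, he⟩ := eqC_Tw m h ls hls
  unfold evw
  rw [he 1 0 (Or.inl one_ne_zero), he 0 1 (Or.inr one_ne_zero)]
  ring

/-- MODULE Lif. -/
theorem hLif (hr : S7Rel) (hp : S7Lifp) (he : S7Ex) (hu : S7Uni) : S7Lif := by
  intro r s g hg
  have h1 := hr (ZMod 7) _ r s g hg
  obtain ⟨F, hF, hF1⟩ := hp r s _ h1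
  obtain ⟨G, hG, hG1⟩ := he ℤ _ r s F hF
  have h2 : SymP 7 r (s + 1) (red G + -g) :=
    Pool.Agent.Helper14.W5.SymP.add (red_Sym hG) (Pool.Agent.Helper14.W5.SymP.neg hg)
  have h3 : EqC (red G + -g) 0 := by
    refine hu (ZMod 7) _ r s _ h2 fun i => ?_
    funext x y
    rw [sub_pf, red_pf, hG1, hF1, sub_self]
    rfl
  have h4 : EqC (red G) g := by
    obtain ⟨c, hc⟩ := h3
    refine ⟨c, fun p q hpq => ?_⟩
    have h5 := hc p q hpq
    simp only [Pi.add_apply, Pi.neg_apply, Pi.zero_apply, zero_add] at h5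
    rw [← h5]
    abel
  refine ⟨G, hG, h4, fun ls hls => ?_⟩
  rw [← red_ev]
  exact ev_congr7 _ h4 ls hls

end Pool.Agent.Helper86.S7
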