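import Pool.Agent.Helper4.S7.StD3

/-!
# Project W7, module Ld: leading forms of the three operators
-/

set_option autoImplicit false

namespace Pool.Agent.Helper86.S7

open Pool.Agent.Helper4.S7 Pool.Agent.Helper84.S7 Pool.Agent.Helper52.S7 Pool.Agent.Helper76.S7

/-! ### Good lists -/

private theorem gd_app {L L' : List Tm} (h : ∀ t ∈ L, Gd t) (h' : ∀ t ∈ L', Gd t) :
    ∀ t ∈ L ++ L', Gd t := by
  intro t ht
  rcases List.mem_append.1 ht with h1 | h1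
  · exact h t h1
  · exact h' t h1

private theorem gd_scl {L : List Tm} (n : ℤ) (h : ∀ t ∈ L, Gd t) : ∀ t ∈ sclL n L, Gd t := by
  intro t ht
  unfold sclL at ht
  rw [List.mem_map] at ht
  obtain ⟨a, ha, rfl⟩ := ht
  exact h a ha

private theorem gd_id (c : ℤ) (i f : Fin 2) : ∀ t ∈ idL c i f, Gd t := by
  intro t ht
  unfold idL at ht
  split_ifs at ht
  · rw [List.mem_singleton] at ht
    subst ht
    unfold Gd
    simp
  · simp at ht

private theorem gd_mul (hp : S7Opm) {L L' : List Tm} (h : ∀ t ∈ L, Gd t) (h' : ∀ t ∈ L', Gd t) :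
    ∀ t ∈ mulL L L', Gd t := ((hp 0 0).1 L L' h h').1

private theorem gd_mm (hp : S7Opm) {A B : Fin 2 → Fin 2 → List Tm} (hA : ∀ i f, ∀ t ∈ A i f, Gd t)
    (hB : ∀ i f, ∀ t ∈ B i f, Gd t) (i f : Fin 2) : ∀ t ∈ mmL A B i f, Gd t :=
  gd_app (gd_mul hp (hA i 0) (hB 0 f)) (gd_mul hp (hA i 1) (hB 1 f))

private theorem gd_ad {A B : Fin 2 → Fin 2 → List Tm} (hA : ∀ i f, ∀ t ∈ A i f, Gd t)
    (hB : ∀ i f, ∀ t ∈ B i f, Gd t) (i f : Fin 2) : ∀ t ∈ adL A B i f, Gd t :=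
  gd_app (hA i f) (hB i f)

private theorem gd_sm (n : ℤ) {A : Fin 2 → Fin 2 → List Tm} (hA : ∀ i f, ∀ t ∈ A i f, Gd t)
    (i f : Fin 2) : ∀ t ∈ smL n A i f, Gd t := gd_scl n (hA i f)

private theorem gd_sb (hp : S7Opm) {L M : Fin 2 → Fin 2 → List Tm}
    (hL : ∀ i f, ∀ t ∈ L i f, Gd t) (hM : ∀ i f, ∀ t ∈ M i f, Gd t)
    (hR : ∀ i f, ∀ t ∈ relL i f, Gd t) (i f : Fin 2) : ∀ t ∈ sbL L M i f, Gd t :=
  gd_app (gd_app (hL i f) (gd_scl _ (gd_mul hp (hM i 0) (hR 0 f))))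
    (gd_scl _ (gd_mul hp (hM i 1) (hR 1 f)))

/-! evaluation of the sums of the leading forms -/

section
variable {M : Type} [AddCommGroup M] [Module (ZMod 7) M]

private theorem sum_a (z : ℤ) (X : ℕ → M) : ∑ i ∈ Finset.range (2 + 1),
    ((if ((i, 0, 2 - i) : ℕ × ℕ × ℕ) = (1, 0, 1) then z else 0 : ℤ) : ZMod 7) • X i =
    (z : ZMod 7) • X 1 := by
  simp [Finset.sum_range_succ]

private theorem sum_b (X : ℕ → M) : ∑ i ∈ Finset.range (4 + 1),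
    ((if ((i, 0, 4 - i) : ℕ × ℕ × ℕ) = (1, 0, 3) ∨ ((i, 0, 4 - i) : ℕ × ℕ × ℕ) = (4, 0, 0) then 4
      else if ((i, 0, 4 - i) : ℕ × ℕ × ℕ) = (2, 0, 2) then 2 else 0 : ℤ) : ZMod 7) • X i =
    (4 : ZMod 7) • X 1 + (2 : ZMod 7) • X 2 + (4 : ZMod 7) • X 4 := by
  simp [Finset.sum_range_succ]

private theorem sum_c (X : ℕ → M) : ∑ i ∈ Finset.range (4 + 1),
    ((if ((i, 0, 4 - i) : ℕ × ℕ × ℕ) = (2, 0, 2) then 5 else 0 : ℤ) : ZMod 7) • X i =
    (5 : ZMod 7) • X 2 := by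
  simp [Finset.sum_range_succ]

private theorem sum_d (X : ℕ → M) : ∑ i ∈ Finset.range (4 + 1),
    ((if ((i, 0, 4 - i) : ℕ × ℕ × ℕ) = (0, 0, 4) ∨ ((i, 0, 4 - i) : ℕ × ℕ × ℕ) = (3, 0, 1) then 1
      else 0 : ℤ) : ZMod 7) • X i = X 0 + X 3 := by
  simp [Finset.sum_range_succ]

private theorem sum_e (z : ℤ) (X : ℕ → M) : ∑ i ∈ Finset.range (8 + 1),
    ((if ((i, 0, 8 - i) : ℕ × ℕ × ℕ) = (1, 0, 7) ∨ ((i, 0, 8 - i) : ℕ × ℕ × ℕ) = (4, 0, 4) ∨
      ((i, 0, 8 - i) : ℕ × ℕ × ℕ) = (7, 0, 1) then z else 0 : ℤ) : ZMod 7) • X i =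
    (z : ZMod 7) • X 1 + (z : ZMod 7) • X 4 + (z : ZMod 7) • X 7 := by
  simp [Finset.sum_range_succ]

end

/-! ### Rows modulo the relations -/

section
variable {r s : ℕ}

private theorem ld_row (hp : S7Opm) (L M : Fin 2 → Fin 2 → List Tm)
    (hM : ∀ i f, ∀ t ∈ M i f, Gd t) (hR : ∀ i f, ∀ t ∈ relL i f, Gd t)
    (F : Fin 2 → Fn7 (7 ^ r) (7 ^ s)) (hF : Rel7 F) (i : Fin 2) :
    ∑ f : Fin 2, opL (L i f) (F f) = opL (sbL L M i 0) (F 0) + opL (sbL L M i 1) (F 1) := by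
  obtain ⟨p1, p2, p3, p4⟩ := hp r s
  have h := (p4 F).1 hF
  have h0 : opL (M i 0) (∑ f : Fin 2, opL (relL 0 f) (F f)) = 0 := by rw [h 0, map_zero]
  have h1 : opL (M i 1) (∑ f : Fin 2, opL (relL 1 f) (F f)) = 0 := by rw [h 1, map_zero]
  rw [Fin.sum_univ_two, map_add] at h0 h1
  have e : ∀ f : Fin 2, opL (sbL L M i f) (F f) = opL (L i f) (F f) -
      opL (M i 0) (opL (relL 0 f) (F f)) - opL (M i 1) (opL (relL 1 f) (F f)) := by
    intro f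
    unfold sbL
    rw [p3, p3, p2, p2, (p1 _ _ (hM i 0) (hR 0 f)).2, (p1 _ _ (hM i 1) (hR 1 f)).2]
    simp only [LinearMap.add_apply, LinearMap.smul_apply, Module.End.mul_apply]
    funext x y
    simp only [Pi.add_apply, Pi.sub_apply, Pi.smul_apply, smul_eq_mul]
    push_cast
    ring
  rw [Fin.sum_univ_two, e, e, eq_neg_of_add_eq_zero_left h0, eq_neg_of_add_eq_zero_left h1]
  abel

private theorem ob0 {q q' : ℕ} (F : Fin 2 → Fn7 q q') : Ob7 F 0 = pj 0 (F 0) := rfl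

private theorem ob1 {q q' : ℕ} (F : Fin 2 → Fn7 q q') : Ob7 F 1 = pj 2 (F 0 + F 1) := rfl

private theorem ob2 {q q' : ℕ} (F : Fin 2 → Fn7 q q') : Ob7 F 2 = pj 4 (F 1) := rfl

private theorem ob3 {q q' : ℕ} (F : Fin 2 → Fn7 q q') : Ob7 F 3 = pj 2 (F 1) := rfl

private theorem qa_ap {q q' : ℕ} (z : Fn7 q q') : Qa z = (3 : ZMod 7) • dX (dY z) := rfl

private theorem qb_ap {q q' : ℕ} (z : Fn7 q q') : Qb z = (4 : ZMod 7) • dX (dY z) := rfl

private theorem ka_ap {q q' : ℕ} (z : Fn7 q q') : Ka z = (4 : ZMod 7) •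
    ((dX ^ 3 : Module.End (ZMod 7) (Fn7 q q')) (dY z) +
      (dY ^ 4 : Module.End (ZMod 7) (Fn7 q q')) z) := rfl

private theorem kb_ap {q q' : ℕ} (z : Fn7 q q') : Kb z =
    (dX ^ 4 : Module.End (ZMod 7) (Fn7 q q')) z +
      dX ((dY ^ 3 : Module.End (ZMod 7) (Fn7 q q')) z) := rfl

private theorem la_ap {q q' : ℕ} (z : Fn7 q q') : La z = (5 : ZMod 7) •
    ((dX ^ 7 : Module.End (ZMod 7) (Fn7 q q')) (dY z) +
      (dX ^ 4 : Module.End (ZMod 7) (Fn7 q q')) ((dY ^ 4 : Module.End (ZMod 7) (Fn7 q q')) z) +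
      dX ((dY ^ 7 : Module.End (ZMod 7) (Fn7 q q')) z)) := rfl

private theorem lc_ap {q q' : ℕ} (z : Fn7 q q') : Lc z = (2 : ZMod 7) •
    ((dX ^ 7 : Module.End (ZMod 7) (Fn7 q q')) (dY z) +
      (dX ^ 4 : Module.End (ZMod 7) (Fn7 q q')) ((dY ^ 4 : Module.End (ZMod 7) (Fn7 q q')) z) +
      dX ((dY ^ 7 : Module.End (ZMod 7) (Fn7 q q')) z)) := rfl

private theorem mem_of_eq {q q' : ℕ} {d : ℤ} {A B : Fn7 q q'} (hB : B ∈ Wd7 d) (h : A = B) :
    A ∈ Wd7 d := h ▸ hB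

private theorem pj_add (hj : S7Pj) (c m : ℕ) :
    (pj (c + 6 * m) : Module.End (ZMod 7) (Fn7 (7 ^ r) (7 ^ s))) = pj c := by
  obtain ⟨-, -, h, -⟩ := hj r s
  induction m with
  | zero => rfl
  | succ m ih => rw [mul_add, mul_one, ← add_assoc, h, ih]

/-- the leading form of one list -/
private theorem ld_lead (hg : S7Ldg) (L : List Tm) (n c : ℕ) (hn : n ≤ 8)
    (hL : ∀ t ∈ L, Gd t)
    (h0 : ∀ w : Fin 6, ∀ t ∈ M9, t.1 + 6 * t.2.1 + t.2.2 < n → (7 : ℤ) ∣ cS L w t.1 t.2.1 t.2.2)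
    (D : ℕ × ℕ × ℕ → ℤ) (hD : ∀ t : ℕ × ℕ × ℕ, t.2.1 ≠ 0 → D t = 0)
    (hC : ∀ t ∈ M9, t.1 + 6 * t.2.1 + t.2.2 = n → (7 : ℤ) ∣ cC L c t.1 t.2.1 t.2.2 - D t)
    (d : ℤ) (F : Fn7 (7 ^ r) (7 ^ s)) (hF : F ∈ Wd7 d) :
    pj c (opL L F) - ∑ i ∈ Finset.range (n + 1), ((D (i, 0, n - i) : ℤ) : ZMod 7) •
      ((dX ^ (n - i) * dY ^ i : Module.End (ZMod 7) (Fn7 (7 ^ r) (7 ^ s)))
        (pj (c + (n - i) + 5 * i) F)) ∈ Wd7 (d - ((n : ℤ) + 1)) := by
  obtain ⟨-, h⟩ := hg r s L n c hn hL h0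
  have h1 := h (fun t ht hw hk => by
    have h2 := hC t ht hw
    rwa [hD t hk, sub_zero] at h2) d F hF
  rw [LinearMap.sub_apply, LinearMap.sum_apply] at h1
  have h3 : ∀ i ∈ Finset.range (n + 1), (((cC L c i 0 (n - i) : ℤ) : ZMod 7) •
      (dX ^ (n - i) * dY ^ i * pj (c + (n - i) + 5 * i) :
        Module.End (ZMod 7) (Fn7 (7 ^ r) (7 ^ s)))) F = ((D (i, 0, n - i) : ℤ) : ZMod 7) •
      ((dX ^ (n - i) * dY ^ i : Module.End (ZMod 7) (Fn7 (7 ^ r) (7 ^ s)))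
        (pj (c + (n - i) + 5 * i) F)) := by
    intro i hi
    rw [Finset.mem_range] at hi
    have h4 : (i, 0, n - i) ∈ M9 := by
      unfold M9
      rw [Finset.mem_filter, Finset.mem_product, Finset.mem_product, Finset.mem_range,
        Finset.mem_range, Finset.mem_range]
      simp only
      omega
    have h5 := hC (i, 0, n - i) h4 (by simp only; omega)
    have h6 := (ZMod.intCast_zmod_eq_zero_iff_dvd _ 7).2 (by exact_mod_cast h5)
    rw [Int.cast_sub, sub_eq_zero] at h6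
    rw [h6]
    rfl
  rw [Finset.sum_congr rfl h3] at h1
  exact h1

/-- a list whose form is zero -/
private theorem ld_zero (hg : S7Ldg) (L : List Tm) (n c : ℕ) (hn : n ≤ 8)
    (hL : ∀ t ∈ L, Gd t)
    (h0 : ∀ w : Fin 6, ∀ t ∈ M9, t.1 + 6 * t.2.1 + t.2.2 < n → (7 : ℤ) ∣ cS L w t.1 t.2.1 t.2.2)
    (hC : ∀ t ∈ M9, t.1 + 6 * t.2.1 + t.2.2 = n → (7 : ℤ) ∣ cC L c t.1 t.2.1 t.2.2)
    (d : ℤ) (F : Fn7 (7 ^ r) (7 ^ s)) (hF : F ∈ Wd7 d) :
    pj c (opL L F) ∈ Wd7 (d - ((n : ℤ) + 1)) := by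
  have h := ld_lead hg L n c hn hL h0 (fun _ => 0) (fun _ _ => rfl)
    (fun t ht hw => by rw [sub_zero]; exact hC t ht hw) d F hF
  simp only [Int.cast_zero, zero_smul, Finset.sum_const_zero, sub_zero] at h
  exact h

end

set_option linter.unusedVariables false in
/-- MODULE Ld. -/
theorem hLd (hl : S7Low0) (hp : S7Opm) (hj : S7Pj) (hg : S7Ldg) (c1 : S7Cert1) (c2 : S7Cert2)
    (c3 : S7Cert3) (c4 : S7Cert4) : S7Ld := by
  intro r s d F hR hF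
  obtain ⟨g1, -, lowU, lowV⟩ := c1
  obtain ⟨cU, cV, -, -⟩ := c2
  have a2 : ∀ i f, ∀ t ∈ T2L i f, Gd t := fun i f => (g1 i f).1
  have a3 : ∀ i f, ∀ t ∈ T3L i f, Gd t := fun i f => (g1 i f).2.1
  have a5 : ∀ i f, ∀ t ∈ T5L i f, Gd t := fun i f => (g1 i f).2.2.1
  have ar : ∀ i f, ∀ t ∈ relL i f, Gd t := fun i f => (g1 i f).2.2.2.1
  have au : ∀ i f, ∀ t ∈ MU i f, Gd t := fun i f => (g1 i f).2.2.2.2.1
  have av : ∀ i f, ∀ t ∈ MV i f, Gd t := fun i f => (g1 i f).2.2.2.2.2.1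
  have a8 : ∀ i f, ∀ t ∈ M8 i f, Gd t := fun i f => (g1 i f).2.2.2.2.2.2
  have gU : ∀ i f, ∀ t ∈ BU i f, Gd t :=
    gd_sb hp (gd_ad (gd_mm hp a2 a2) (gd_ad (gd_sm _ a2) (gd_id 3))) au ar
  have gV : ∀ i f, ∀ t ∈ BV i f, Gd t :=
    gd_sb hp (gd_mm hp a3 (gd_ad (gd_mm hp a2 a2) (gd_ad a2 (gd_id 2)))) av ar
  have g8 : ∀ i f, ∀ t ∈ B8 i f, Gd t :=
    gd_sb hp (gd_ad (gd_mm hp a3 (gd_ad (gd_id 3) (gd_ad (gd_sm 2 a2)
      (gd_ad (gd_sm (-1) (gd_mm hp a2 a2)) (gd_sm (-1) (gd_mm hp a3 a3))))))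
      (gd_mm hp a5 (gd_ad (gd_mm hp a2 a2) (gd_id 4)))) a8 ar
  have hpj : ∀ (c m k : ℕ), k = c + 6 * m →
      (pj k : Module.End (ZMod 7) (Fn7 (7 ^ r) (7 ^ s))) = pj c := by
    intro c m k hk
    rw [hk]
    exact pj_add hj c m
  refine ⟨fun F' hF' => ?_, fun F' hF' => ?_, fun F' hF' => ?_⟩
  · -- the first operator
    have e : ∀ i, F' i = opL (BU i 0) (F 0) + opL (BU i 1) (F 1) := fun i => by
      rw [hF' i]
      exact ld_row hp UL MU au ar F hR i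
    have hlow : ∀ i f, opL (BU i f) (F f) ∈ (Wd7 (d - 2) : Submodule (ZMod 7) (Fn7 (7 ^ r) (7 ^ s))) :=
      fun i f => (hg r s (BU i f) 2 0 (by norm_num) (gU i f) (lowU i f)).1 d (F f) (hF f)
    have hd3 : d - (((2 : ℕ) : ℤ) + 1) = d - 3 := by push_cast; ring
    have key : ∀ (i f : Fin 2) (c : ℕ) (z : ℤ),
        (∀ t ∈ M9, t.1 + 6 * t.2.1 + t.2.2 = 2 →
          (7 : ℤ) ∣ cC (BU i f) c t.1 t.2.1 t.2.2 - (if t = (1, 0, 1) then z else 0)) →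
        pj c (opL (BU i f) (F f)) - (z : ZMod 7) • (dX (dY (pj c (F f)))) ∈
          (Wd7 (d - 3) : Submodule (ZMod 7) (Fn7 (7 ^ r) (7 ^ s))) := by
      intro i f c z hz
      have h := ld_lead hg (BU i f) 2 c (by norm_num) (gU i f) (lowU i f)
        (fun t => if t = (1, 0, 1) then z else 0)
        (fun t ht => if_neg fun h => ht (by rw [h])) hz d (F f) (hF f)
      rw [hd3, sum_a, hpj c 1 (c + (2 - 1) + 5 * 1) (by omega)] at h
      exact h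
    have keyz : ∀ (i f : Fin 2) (c : ℕ),
        (∀ t ∈ M9, t.1 + 6 * t.2.1 + t.2.2 = 2 → (7 : ℤ) ∣ cC (BU i f) c t.1 t.2.1 t.2.2) →
        pj c (opL (BU i f) (F f)) ∈ (Wd7 (d - 3) : Submodule (ZMod 7) (Fn7 (7 ^ r) (7 ^ s))) := by
      intro i f c hz
      have h := ld_zero hg (BU i f) 2 c (by norm_num) (gU i f) (lowU i f) hz d (F f) (hF f)
      rwa [hd3] at h
    refine ⟨fun i => ?_, ?_, ?_, ?_, ?_⟩
    · rw [e]
      exact Submodule.add_mem _ (hlow i 0) (hlow i 1)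
    · have h3 := Submodule.add_mem _ (key 0 0 0 3 (fun t ht hw => (cU t ht hw).1))
        (keyz 0 1 0 (fun t ht hw => (cU t ht hw).2.1))
      have h4 : Ob7 F' 0 - Qa (Ob7 F 0) = pj 0 (opL (BU 0 0) (F 0)) -
          ((3 : ℤ) : ZMod 7) • (dX (dY (pj 0 (F 0)))) + pj 0 (opL (BU 0 1) (F 1)) := by
        rw [ob0, ob0, qa_ap, e, map_add]
        push_cast
        abel
      rw [h4]
      exact h3
    · have h3 := Submodule.add_mem _ (Submodule.add_mem _ (Submodule.add_mem _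
        (key 0 0 2 4 (fun t ht hw => (cU t ht hw).2.2.1))
        (key 0 1 2 1 (fun t ht hw => (cU t ht hw).2.2.2.1)))
        (keyz 1 0 2 (fun t ht hw => (cU t ht hw).2.2.2.2.1)))
        (key 1 1 2 3 (fun t ht hw => (cU t ht hw).2.2.2.2.2.1))
      have h4 : Ob7 F' 1 - Qb (Ob7 F 1) = pj 2 (opL (BU 0 0) (F 0)) -
          ((4 : ℤ) : ZMod 7) • (dX (dY (pj 2 (F 0)))) + (pj 2 (opL (BU 0 1) (F 1)) -
          ((1 : ℤ) : ZMod 7) • (dX (dY (pj 2 (F 1))))) + pj 2 (opL (BU 1 0) (F 0)) +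
          (pj 2 (opL (BU 1 1) (F 1)) - ((3 : ℤ) : ZMod 7) • (dX (dY (pj 2 (F 1))))) := by
        rw [ob1, ob1, qb_ap, e, e]
        simp only [map_add]
        funext x y
        simp only [Pi.add_apply, Pi.sub_apply, Pi.smul_apply, smul_eq_mul]
        push_cast
        ring
      rw [h4]
      exact h3
    · have h3 := Submodule.add_mem _ (keyz 1 0 4 (fun t ht hw => (cU t ht hw).2.2.2.2.2.2.1))
        (key 1 1 4 4 (fun t ht hw => (cU t ht hw).2.2.2.2.2.2.2))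
      have h4 : Ob7 F' 2 - Qb (Ob7 F 2) = pj 4 (opL (BU 1 0) (F 0)) +
          (pj 4 (opL (BU 1 1) (F 1)) - ((4 : ℤ) : ZMod 7) • (dX (dY (pj 4 (F 1))))) := by
        rw [ob2, ob2, qb_ap, e, map_add]
        push_cast
        abel
      rw [h4]
      exact h3
    · have h3 := Submodule.add_mem _ (keyz 1 0 2 (fun t ht hw => (cU t ht hw).2.2.2.2.1))
        (key 1 1 2 3 (fun t ht hw => (cU t ht hw).2.2.2.2.2.1))
      have h4 : Ob7 F' 3 - Qa (Ob7 F 3) = pj 2 (opL (BU 1 0) (F 0)) +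
          (pj 2 (opL (BU 1 1) (F 1)) - ((3 : ℤ) : ZMod 7) • (dX (dY (pj 2 (F 1))))) := by
        rw [ob3, ob3, qa_ap, e, map_add]
        push_cast
        abel
      rw [h4]
      exact h3
  · -- the second operator
    have e : ∀ i, F' i = opL (BV i 0) (F 0) + opL (BV i 1) (F 1) := fun i => by
      rw [hF' i]
      exact ld_row hp VL MV av ar F hR i
    have hlow : ∀ i f, opL (BV i f) (F f) ∈ (Wd7 (d - 4) : Submodule (ZMod 7) (Fn7 (7 ^ r) (7 ^ s))) :=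
      fun i f => (hg r s (BV i f) 4 0 (by norm_num) (gV i f) (lowV i f)).1 d (F f) (hF f)
    have hd5 : d - (((4 : ℕ) : ℤ) + 1) = d - 5 := by push_cast; ring
    have keyz : ∀ (i f : Fin 2) (c : ℕ),
        (∀ t ∈ M9, t.1 + 6 * t.2.1 + t.2.2 = 4 → (7 : ℤ) ∣ cC (BV i f) c t.1 t.2.1 t.2.2) →
        pj c (opL (BV i f) (F f)) ∈ (Wd7 (d - 5) : Submodule (ZMod 7) (Fn7 (7 ^ r) (7 ^ s))) := by
      intro i f c hz
      have h := ld_zero hg (BV i f) 4 c (by norm_num) (gV i f) (lowV i f) hz d (F f) (hF f)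
      rwa [hd5] at h
    have kb : pj 2 (opL (BV 0 1) (F 1)) - ((4 : ZMod 7) • ((dX ^ 3 * dY ^ 1 :
        Module.End (ZMod 7) (Fn7 (7 ^ r) (7 ^ s))) (pj 4 (F 1))) +
        (2 : ZMod 7) • ((dX ^ 2 * dY ^ 2 :
        Module.End (ZMod 7) (Fn7 (7 ^ r) (7 ^ s))) (pj 2 (F 1))) +
        (4 : ZMod 7) • ((dX ^ 0 * dY ^ 4 :
        Module.End (ZMod 7) (Fn7 (7 ^ r) (7 ^ s))) (pj 4 (F 1)))) ∈
          (Wd7 (d - 5) : Submodule (ZMod 7) (Fn7 (7 ^ r) (7 ^ s))) := by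
      have h := ld_lead hg (BV 0 1) 4 2 (by norm_num) (gV 0 1) (lowV 0 1)
        (fun t => if t = (1, 0, 3) ∨ t = (4, 0, 0) then 4 else if t = (2, 0, 2) then 2 else 0)
        (fun t ht => by
          rw [if_neg, if_neg]
          · intro h
            exact ht (by rw [h])
          · rintro (h | h)
            · exact ht (by rw [h])
            · exact ht (by rw [h])) (fun t ht hw => (cV t ht hw).2.1) d (F 1) (hF 1)
      rw [hd5, sum_b, hpj 4 1 (2 + (4 - 1) + 5 * 1) (by omega), hpj 2 2 (2 + (4 - 2) + 5 * 2) (by omega),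
        hpj 4 3 (2 + (4 - 4) + 5 * 4) (by omega)] at h
      exact h
    have kc : pj 2 (opL (BV 1 1) (F 1)) - (5 : ZMod 7) • ((dX ^ 2 * dY ^ 2 :
        Module.End (ZMod 7) (Fn7 (7 ^ r) (7 ^ s))) (pj 2 (F 1))) ∈
          (Wd7 (d - 5) : Submodule (ZMod 7) (Fn7 (7 ^ r) (7 ^ s))) := by
      have h := ld_lead hg (BV 1 1) 4 2 (by norm_num) (gV 1 1) (lowV 1 1)
        (fun t => if t = (2, 0, 2) then 5 else 0)
        (fun t ht => if_neg fun h => ht (by rw [h]))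
        (fun t ht hw => (cV t ht hw).2.2.2.1) d (F 1) (hF 1)
      rw [hd5, sum_c, hpj 2 2 (2 + (4 - 2) + 5 * 2) (by omega)] at h
      exact h
    have kd : ∀ f : Fin 2, (∀ t ∈ M9, t.1 + 6 * t.2.1 + t.2.2 = 4 →
        (7 : ℤ) ∣ cC (BV 1 f) 4 t.1 t.2.1 t.2.2 -
          (if t = (0, 0, 4) ∨ t = (3, 0, 1) then 1 else 0)) →
        pj 4 (opL (BV 1 f) (F f)) - ((dX ^ 4 * dY ^ 0 :
        Module.End (ZMod 7) (Fn7 (7 ^ r) (7 ^ s))) (pj 2 (F f)) +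
        (dX ^ 1 * dY ^ 3 : Module.End (ZMod 7) (Fn7 (7 ^ r) (7 ^ s))) (pj 2 (F f))) ∈
          (Wd7 (d - 5) : Submodule (ZMod 7) (Fn7 (7 ^ r) (7 ^ s))) := by
      intro f hz
      have h := ld_lead hg (BV 1 f) 4 4 (by norm_num) (gV 1 f) (lowV 1 f)
        (fun t => if t = (0, 0, 4) ∨ t = (3, 0, 1) then 1 else 0)
        (fun t ht => by
          rw [if_neg]
          rintro (h | h)
          · exact ht (by rw [h])
          · exact ht (by rw [h])) hz d (F f) (hF f)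
      rw [hd5, sum_d, hpj 2 1 (4 + (4 - 0) + 5 * 0) (by omega),
        hpj 2 3 (4 + (4 - 3) + 5 * 3) (by omega)] at h
      exact h
    refine ⟨fun i => ?_, ?_, ?_⟩
    · rw [e]
      exact Submodule.add_mem _ (hlow i 0) (hlow i 1)
    · have h3 := Submodule.add_mem _ (Submodule.add_mem _ (Submodule.add_mem _
        (keyz 0 0 2 (fun t ht hw => (cV t ht hw).1)) kb)
        (keyz 1 0 2 (fun t ht hw => (cV t ht hw).2.2.1))) kc
      refine mem_of_eq h3 ?_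
      rw [ob1, ob2, ka_ap, e, e, pow_one, pow_zero, one_mul]
      simp only [map_add, Module.End.mul_apply]
      funext x y
      simp only [Pi.add_apply, Pi.sub_apply, Pi.smul_apply, smul_eq_mul]
      have h7 : (7 : ZMod 7) = 0 := by decide
      linear_combination (((dX ^ 2 : Module.End (ZMod 7) (Fn7 (7 ^ r) (7 ^ s)))
        ((dY ^ 2 : Module.End (ZMod 7) (Fn7 (7 ^ r) (7 ^ s))) (pj 2 (F 1))) x y)) * h7
    · have h3 := Submodule.add_mem _ (kd 0 (fun t ht hw => (cV t ht hw).2.2.2.2.1))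
        (kd 1 (fun t ht hw => (cV t ht hw).2.2.2.2.2))
      refine mem_of_eq h3 ?_
      rw [ob2, ob1, kb_ap, e, pow_one, pow_zero, mul_one]
      simp only [map_add, Module.End.mul_apply]
      abel
  · -- the third operator
    have e : ∀ i, F' i = opL (B8 i 0) (F 0) + opL (B8 i 1) (F 1) := fun i => by
      rw [hF' i]
      exact ld_row hp EL M8 a8 ar F hR i
    have hlow : ∀ i f, opL (B8 i f) (F f) ∈ (Wd7 (d - 8) : Submodule (ZMod 7) (Fn7 (7 ^ r) (7 ^ s))) :=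
      fun i f => (hg r s (B8 i f) 8 0 (by norm_num) (g8 i f) (c3 i f)).1 d (F f) (hF f)
    have hd9 : d - (((8 : ℕ) : ℤ) + 1) = d - 9 := by push_cast; ring
    have keyz : ∀ (i f : Fin 2) (c : ℕ),
        (∀ t ∈ M9, t.1 + 6 * t.2.1 + t.2.2 = 8 → (7 : ℤ) ∣ cC (B8 i f) c t.1 t.2.1 t.2.2) →
        pj c (opL (B8 i f) (F f)) ∈ (Wd7 (d - 9) : Submodule (ZMod 7) (Fn7 (7 ^ r) (7 ^ s))) := by
      intro i f c hz
      have h := ld_zero hg (B8 i f) 8 c (by norm_num) (g8 i f) (c3 i f) hz d (F f) (hF f)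
      rwa [hd9] at h
    have key : ∀ (i f : Fin 2) (c : ℕ) (z : ℤ),
        (∀ t ∈ M9, t.1 + 6 * t.2.1 + t.2.2 = 8 →
          (7 : ℤ) ∣ cC (B8 i f) c t.1 t.2.1 t.2.2 -
            (if t = (1, 0, 7) ∨ t = (4, 0, 4) ∨ t = (7, 0, 1) then z else 0)) →
        pj c (opL (B8 i f) (F f)) - ((z : ZMod 7) • ((dX ^ 7 * dY ^ 1 :
          Module.End (ZMod 7) (Fn7 (7 ^ r) (7 ^ s))) (pj c (F f))) +
          (z : ZMod 7) • ((dX ^ 4 * dY ^ 4 :
          Module.End (ZMod 7) (Fn7 (7 ^ r) (7 ^ s))) (pj c (F f))) +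
          (z : ZMod 7) • ((dX ^ 1 * dY ^ 7 :
          Module.End (ZMod 7) (Fn7 (7 ^ r) (7 ^ s))) (pj c (F f)))) ∈
          (Wd7 (d - 9) : Submodule (ZMod 7) (Fn7 (7 ^ r) (7 ^ s))) := by
      intro i f c z hz
      have h := ld_lead hg (B8 i f) 8 c (by norm_num) (g8 i f) (c3 i f)
        (fun t => if t = (1, 0, 7) ∨ t = (4, 0, 4) ∨ t = (7, 0, 1) then z else 0)
        (fun t ht => by
          rw [if_neg]
          rintro (h | h | h)
          · exact ht (by rw [h])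
          · exact ht (by rw [h])
          · exact ht (by rw [h])) hz d (F f) (hF f)
      rw [hd9, sum_e, hpj c 2 (c + (8 - 1) + 5 * 1) (by omega),
        hpj c 4 (c + (8 - 4) + 5 * 4) (by omega), hpj c 6 (c + (8 - 7) + 5 * 7) (by omega)] at h
      exact h
    refine ⟨fun i => ?_, ?_, ?_⟩
    · rw [e]
      exact Submodule.add_mem _ (hlow i 0) (hlow i 1)
    · have h3 := Submodule.add_mem _ (key 0 0 0 5 (fun t ht hw => (c4 t ht hw).1))
        (keyz 0 1 0 (fun t ht hw => (c4 t ht hw).2.1))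
      refine mem_of_eq h3 ?_
      rw [ob0, ob0, la_ap, e, pow_one, pow_one]
      simp only [map_add, Module.End.mul_apply]
      funext x y
      simp only [Pi.add_apply, Pi.sub_apply, Pi.smul_apply, smul_eq_mul]
      push_cast
      ring
    · have h3 := Submodule.add_mem _ (keyz 1 0 2 (fun t ht hw => (c4 t ht hw).2.2.1))
        (key 1 1 2 2 (fun t ht hw => (c4 t ht hw).2.2.2))
      refine mem_of_eq h3 ?_
      rw [ob3, ob3, lc_ap, e, pow_one, pow_one]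
      simp only [map_add, Module.End.mul_apply]
      funext x y
      simp only [Pi.add_apply, Pi.sub_apply, Pi.smul_apply, smul_eq_mul]
      push_cast
      ring

end Pool.Agent.Helper86.S7
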